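import Mathlib
import Pool.Agent.Helper81.Box5

set_option autoImplicit false

namespace Pool.Agent.Helper21.Parked.Cocktail

open SimpleGraph

/-- Let `p` be prime, let `G` be a graph on `n ≤ p - 1` vertices whose complement has a matching
(given by the involution `m`) missing at most `p - 1 - n` vertices, let every `H i` be a finite forest
or an even cycle, and suppose `Δ(G) + ∑ Δ(H i) ≥ p - 3`.  Then the Cartesian product `P` of `G` and all
the `H i` satisfies the list edge-colouring conjecture, with chromatic index `Δ(G) + ∑ Δ(H i)`. (For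
`s = 0` the product is a copy of `G`; in particular `G` may be the complete graph on `p - 1` vertices
minus a perfect matching.) -/
theorem result (V : Type) [Fintype V] [DecidableEq V] [Nonempty V] (G : SimpleGraph V) [DecidableRel G.Adj]
    (s : ℕ) (W : Fin s → Type) [∀ i, Fintype (W i)] [∀ i, Nonempty (W i)]
    (H : ∀ i, SimpleGraph (W i)) [∀ i, DecidableRel (H i).Adj]
    (hH : ∀ i, (H i).IsAcyclic ∨ ∃ n, 2 ≤ n ∧ Nonempty (H i ≃g cycleGraph (2 * n)))
    (p : ℕ) (hp : p.Prime)
    (hm : ∃ m : V → V, (∀ v, m (m v) = v) ∧ (∀ v, ¬ G.Adj v (m v)) ∧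
      Fintype.card V + Fintype.card {v // m v = v} + 1 ≤ p)
    (h2 : p ≤ G.maxDegree + ∑ i, (H i).maxDegree + 3)
    (P : SimpleGraph (V × (∀ i, W i)))
    (hP : ∀ x y, P.Adj x y ↔ (G.Adj x.1 y.1 ∧ x.2 = y.2) ∨
      (x.1 = y.1 ∧ ∃ i, (H i).Adj (x.2 i) (y.2 i) ∧ ∀ j, j ≠ i → x.2 j = y.2 j)) (k : ℕ) :
    (P.lineGraph.Colorable k ↔
      ∀ L : P.edgeSet → Finset ℕ, (∀ e, k ≤ (L e).card) →
        ∃ f : P.edgeSet → ℕ, (∀ e, f e ∈ L e) ∧ ∀ e e', P.lineGraph.Adj e e' → f e ≠ f e') ∧
    (P.lineGraph.Colorable k ↔ G.maxDegree + ∑ i, (H i).maxDegree ≤ k) :=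
  Pool.Agent.Helper81.Box.final_box' G W H hH
    (hm.elim fun m h => Pool.Agent.Helper81.Box.GG_cocktailBox hp m h.1 h.2.1 h.2.2 h2) P hP k

end Pool.Agent.Helper21.Parked.Cocktail

/- Parked claim text (the hand-in was moved out of Results by the four hand-in limit):
Proves: Let p be a prime, G a simple graph on n vertices with 1 <= n <= p-1 whose complement has a matching leaving at most p-1-n vertices unmatched, s >= 0, each of H_1,...,H_s a nonempty finite forest or a cycle of even length, Delta(G)+Delta(H_1)+...+Delta(H_s) >= p-3, and P the Cartesian product of G,H_1,...,H_s; then ch'(P) = chi'(P) = Delta(G)+Delta(H_1)+...+Delta(H_s), i.e. for every k, P has a proper edge colouring with k colours iff P is L-edge-colourable for every edge list assignment L (lists of natural numbers) with |L(e)| >= k for all e, and also iff k >= Delta(G)+Delta(H_1)+...+Delta(H_s).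
Definitions: none
Relation: Partial answer to Q1 (positive direction). For s = 0, P is a copy of G: the conjecture for every graph on p-1 vertices with maximum degree p-3 whose complement has a perfect matching, e.g. cocktail party graphs K_{2,...,2} on p-1 vertices (ch' = p-3). Earlier work: Haggkvist-Janssen 1997, Schauz 2014 (complete graphs only), Galvin 1995 (bipartite). Believed new for these graphs and products. (In Lean the matching is an involution m of V with v, m(v) non-adjacent; fixed points = unmatched vertices.)
-/
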