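import Mathlib
import Pool.Agent.Helper21.LEH.Final

set_option autoImplicit false

namespace Pool.Agent.Results.MP_2f9829_co.Degenerate

open SimpleGraph

/-- Let `G` be a finite graph of maximum degree `Δ` such that every subgraph `H` of `G` with
`deg_H u + deg_H v ≥ Δ + 2` for all its edges `uv` is `d`-degenerate (every nonempty set `W` of
vertices contains a vertex with at most `d` neighbours in `W`); in particular every `d`-degenerate
`G` has this property. Suppose `Δ ≥ 2 · 10²⁴ · d` or `Δ ≥ 700 d log Δ`. Then `G` satisfies the list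
edge-colouring conjecture, with chromatic index and list chromatic index `Δ`. -/
theorem result (V : Type) [Fintype V] [DecidableEq V] (G : SimpleGraph V) [DecidableRel G.Adj]
    (d : ℕ)
    (hd : ∀ (H : SimpleGraph V) [DecidableRel H.Adj], H ≤ G →
      (∀ u v, H.Adj u v → G.maxDegree + 2 ≤ H.degree u + H.degree v) →
      ∀ W : Finset V, W.Nonempty → ∃ v ∈ W, (W.filter (H.Adj v)).card ≤ d)
    (hΔ : 2 * 10 ^ 24 * d ≤ G.maxDegree ∨
      700 * (d : ℝ) * Real.log G.maxDegree ≤ G.maxDegree) (k : ℕ) :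
    (G.lineGraph.Colorable k ↔
      ∀ L : G.edgeSet → Finset ℕ, (∀ e, k ≤ (L e).card) →
        ∃ f : G.edgeSet → ℕ, (∀ e, f e ∈ L e) ∧ ∀ e e', G.lineGraph.Adj e e' → f e ≠ f e') ∧
    (G.lineGraph.Colorable k ↔ G.maxDegree ≤ k) :=
  Pool.Agent.Helper21.LEH.final G d hd hΔ k

end Pool.Agent.Results.MP_2f9829_co.Degenerate
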